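import Pool.Agent.H32.CutRes

set_option autoImplicit false

namespace Pool.Agent.Results.MP_1e9518_pr.NoSepCutoff

open Filter Topology Pool.Agent.H32.Cut

noncomputable section

/-- Transition matrix `(I + A / D) / 2` of the lazy simple random walk on a finite simple graph. -/
def lazyWalk {V : Type} [Fintype V] [DecidableEq V] (Γ : SimpleGraph V) [DecidableRel Γ.Adj] :
    Matrix V V ℝ :=
  Matrix.of fun a b => (if a = b then (1 / 2 : ℝ) else 0) +
    (if Γ.Adj a b then 1 / (2 * (Γ.degree a : ℝ)) else 0)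

/-- `T_mix(ε)`: the least `t` with `‖P^t(x,·) - uniform‖_TV ≤ ε` for every start `x`. -/
def tmix {V : Type} [Fintype V] [DecidableEq V] (P : Matrix V V ℝ) (ε : ℝ) : ℕ :=
  sInf {t : ℕ | ∀ x, 1 / 2 * ∑ y, |(P ^ t) x y - 1 / (Fintype.card V : ℝ)| ≤ ε}

/-- `T_sep(ε)`: the least `t` with `1 - P^t(x,y) / π(y) ≤ ε` for all `x, y`, `π` uniform. -/
def tsep {V : Type} [Fintype V] [DecidableEq V] (P : Matrix V V ℝ) (ε : ℝ) : ℕ :=
  sInf {t : ℕ | ∀ x y, 1 - (P ^ t) x y / (1 / (Fintype.card V : ℝ)) ≤ ε}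

/-- Second largest eigenvalue of a symmetric stochastic matrix: the largest eigenvalue having an
eigenvector orthogonal to the constants. -/
def lam2 {V : Type} [Fintype V] (P : Matrix V V ℝ) : ℝ :=
  sSup {c : ℝ | ∃ f : V → ℝ, f ≠ 0 ∧ ∑ x, f x = 0 ∧ P.mulVec f = c • f}

/-- Relaxation time `1 / (1 - λ₂)`. -/
def trel {V : Type} [Fintype V] (P : Matrix V V ℝ) : ℝ := 1 / (1 - lam2 P)

theorem result :
    ∃ (V : ℕ → Type) (_ : ∀ n, Fintype (V n)) (_ : ∀ n, DecidableEq (V n))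
      (Γ : ∀ n, SimpleGraph (V n)) (_ : ∀ n, DecidableRel (Γ n).Adj),
      Tendsto (fun n => Fintype.card (V n)) atTop atTop ∧
      (∀ n, (Γ n).Connected ∧ ∀ x y : V n, ∃ φ : Γ n ≃g Γ n, φ x = y) ∧
      (∀ n (c : ℝ) (f : V n → ℝ), f ≠ 0 → ∑ x, f x = 0 → (lazyWalk (Γ n)).mulVec f = c • f →
        |c| ≤ 3 / 4) ∧
      Tendsto (fun n => (tmix (lazyWalk (Γ n)) (1 / 4) : ℝ) / trel (lazyWalk (Γ n))) atTop atTop ∧
      (∀ n, 1 ≤ tsep (lazyWalk (Γ n)) (1 - 1 / 200) ∧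
        2 * tsep (lazyWalk (Γ n)) (1 - 1 / 200) ≤ tsep (lazyWalk (Γ n)) (1 / 200)) ∧
      ¬ Tendsto (fun n => (tsep (lazyWalk (Γ n)) (1 / 200) : ℝ) / tsep (lazyWalk (Γ n)) (1 - 1 / 200))
        atTop (𝓝 1) := by
  choose G i1 i2 i3 S h0 _ hn hP using fun n : ℕ => exists_pak (n + 201) (by omega)
  have P1 := fun n => hP n (1 / 2) (by norm_num) le_rfl
  have P0 := fun n => hP n 0 le_rfl (by norm_num)
  have key : ∀ n, 1 ≤ ts (M (lz (1 / 2) (S n))) (1 - 1 / 200) ∧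
      2 * ts (M (lz (1 / 2) (S n))) (1 - 1 / 200) ≤ ts (M (lz (1 / 2) (S n))) (1 / 200) := fun n => by
    have a := (P1 n).ts_up (by omega)
    have b := (P1 n).ts_low (by omega)
    omega
  have e : ∀ n, lazyWalk (cay (S n) (h0 n) (hn n)) = M (lz (1 / 2) (S n)) := fun n => cay_lazy
  refine ⟨G, i2, i3, fun n => cay (S n) (h0 n) (hn n), inferInstance,
    tendsto_atTop_mono (fun n => ?_) tendsto_id,
    fun n => ⟨cay_conn (P0 n) (by omega), cay_trans⟩, ?_⟩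
  · exact le_trans (Nat.le_add_right n 201) (P1 n).card
  · simp only [e]
    refine ⟨fun n c f h1 h2 h3 => (P1 n).eig h1 h2 h3, prod_cond (fun n => ?_) fun n => (P1 n).l2_le,
      key, no_cut key⟩
    have b := (P1 n).tm_low (by omega) (ε := 1 / 4) (by norm_num) (by norm_num)
    exact le_trans (by omega) b.le

end

end Pool.Agent.Results.MP_1e9518_pr.NoSepCutoff
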